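import Mathlib

/-!
Power-series calculus behind the enumeration of permutations avoiding 23-1-4.
-/

namespace Pool.Agent.H970Z.BS

open PowerSeries Finset

/-- `H = 1 / (1 - X)`. -/
noncomputable def H : ℚ⟦X⟧ := PowerSeries.mk 1

/-- The derivation `f ↦ f' X / (1 - X)`. -/
noncomputable def dl : Module.End ℚ ℚ⟦X⟧ :=
  (LinearMap.mulLeft ℚ (X * H)) ∘ₗ (PowerSeries.derivative ℚ).toLinearMap

/-- The shift `f ↦ (f - f(0)) / X`. -/
noncomputable def sh : Module.End ℚ ℚ⟦X⟧ where
  toFun f := PowerSeries.mk (fun k => coeff (k + 1) f)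
  map_add' f g := by ext k; simp
  map_smul' c f := by ext k; simp

/-- One step of the generating tree. -/
noncomputable def RR : Module.End ℚ ℚ⟦X⟧ := sh + dl

/-- The twisted derivation `y ↦ dl y + c y`. -/
noncomputable def LL (c : ℚ⟦X⟧) : Module.End ℚ ℚ⟦X⟧ := dl + LinearMap.mulLeft ℚ c

/-- The functional at level `n`. -/
noncomputable def ev (n : ℕ) : ℚ⟦X⟧ →ₗ[ℚ] ℚ :=
  (PowerSeries.coeff 0) ∘ₗ (RR ^ n)

theorem dl_apply (f : ℚ⟦X⟧) : dl f = X * H * PowerSeries.derivative ℚ f := rfl

theorem dl_mul (f g : ℚ⟦X⟧) : dl (f * g) = dl f * g + f * dl g := by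
  simp only [dl_apply, Derivation.leibniz, smul_eq_mul]
  ring

theorem dl_X : dl X = X * H := by simp [dl_apply]

theorem dl_C (a : ℚ) : dl (C a) = 0 := by simp [dl_apply]

theorem dl_one : dl 1 = 0 := by simpa using dl_C 1

theorem coeff_zero_dl (f : ℚ⟦X⟧) : coeff 0 (dl f) = 0 := by
  rw [dl_apply, mul_assoc, coeff_zero_X_mul]

theorem H_eq : H = 1 + X * H := by
  have := PowerSeries.mk_one_mul_one_sub_eq_one ℚ
  change H * (1 - X) = 1 at this
  linear_combination this

theorem LL_apply (c y : ℚ⟦X⟧) : LL c y = dl y + c * y := rfl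

theorem LL_mul (c f y : ℚ⟦X⟧) : LL c (f * y) = dl f * y + f * LL c y := by
  simp only [LL_apply, dl_mul]
  ring

theorem LL_zero : LL 0 = dl := by
  ext1 y
  simp [LL_apply]

theorem RR_apply (f : ℚ⟦X⟧) : RR f = sh f + dl f := rfl

theorem eq_sh (f : ℚ⟦X⟧) : f = X * sh f + C (coeff 0 f) := by
  rw [coeff_zero_eq_constantCoeff_apply]
  exact PowerSeries.eq_X_mul_shift_add_const f

theorem sh_X_mul (f : ℚ⟦X⟧) : sh (X * f) = f := by
  ext k
  change coeff k (PowerSeries.mk (fun k => coeff (k + 1) (X * f))) = _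
  rw [coeff_mk, coeff_succ_X_mul]

theorem RR_X_mul (f : ℚ⟦X⟧) : RR (X * f) = f + dl (X * f) := by rw [RR_apply, sh_X_mul]

theorem C_mul_eq (a : ℚ) (g : ℚ⟦X⟧) : C a * g = a • g := by
  rw [← PowerSeries.smul_eq_C_mul]

theorem RR_C (a : ℚ) : RR (C a) = 0 := by
  rw [RR_apply, dl_C, add_zero]
  ext k
  change coeff k (PowerSeries.mk (fun k => coeff (k + 1) (C a))) = _
  simp

theorem RR_mul (f g : ℚ⟦X⟧) :
    RR (f * g) = coeff 0 f • RR g + RR f * g + (f - C (coeff 0 f)) * dl g := by
  have h := eq_sh f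
  set a := coeff 0 f
  set s := sh f
  have e1 : f * g = X * (s * g) + a • g := by rw [h, ← C_mul_eq]; ring
  have e2 : RR f = s + dl (X * s) := by
    conv_lhs => rw [h]
    rw [map_add, RR_C, add_zero, RR_X_mul]
  have e3 : f - C a = X * s := by rw [sub_eq_iff_eq_add]; exact h
  rw [e1, map_add, map_smul, RR_X_mul, e2, e3, ← mul_assoc, dl_mul (X * s) g]
  ring

theorem ev_zero (f : ℚ⟦X⟧) : ev 0 f = coeff 0 f := by simp [ev]

theorem ev_succ (n : ℕ) (f : ℚ⟦X⟧) : ev (n + 1) f = ev n (RR f) := by
  simp [ev, pow_succ]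

theorem ev_succ_C (n : ℕ) (a : ℚ) : ev (n + 1) (C a) = 0 := by
  rw [ev_succ, RR_C, map_zero]

theorem dl_pow_succ (n : ℕ) (f : ℚ⟦X⟧) : (dl ^ (n + 1)) f = (dl ^ n) (dl f) := by
  simp [pow_succ]

theorem LL_pow_succ (c : ℚ⟦X⟧) (n : ℕ) (f : ℚ⟦X⟧) :
    (LL c ^ (n + 1)) f = (LL c ^ n) (LL c f) := by
  simp [pow_succ]

theorem dl_X_mul (y : ℚ⟦X⟧) : dl (X * y) = X * LL H y := by
  rw [dl_mul, dl_X, LL_apply]; ring

theorem dl_pow_X_mul (n : ℕ) (y : ℚ⟦X⟧) : (dl ^ n) (X * y) = X * (LL H ^ n) y := by
  induction n generalizing y with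
  | zero => simp
  | succ n ih => rw [dl_pow_succ, dl_X_mul, ih, LL_pow_succ]

/-- The key identity. -/
theorem key (l m : ℕ) (y : ℚ⟦X⟧) :
    ev (m + 1) ((dl ^ l) (X * y)) - ev m ((LL H ^ l) y) = ev m ((dl ^ (l + 1)) (X * y)) := by
  rw [ev_succ, dl_pow_X_mul, RR_X_mul, map_add, ← dl_pow_X_mul, pow_succ', Module.End.mul_apply]
  ring

/-- Number of elements below `a`. -/
def z1 (a : ℕ) (S : Finset ℕ) : ℕ := (S.filter (fun v => v < a)).card
/-- Number of elements in `[a, b)`. -/
def z2 (a b : ℕ) (S : Finset ℕ) : ℕ := (S.filter (fun v => a ≤ v ∧ v < b)).card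
/-- Number of elements at least `b`. -/
def z3 (b : ℕ) (S : Finset ℕ) : ℕ := (S.filter (fun v => b ≤ v)).card
/-- The threshold seen by the left part. -/
def thr (b : ℕ) (V : Finset ℕ) : ℕ := max (V.sup id) b

theorem z1_insert {a μ : ℕ} {S : Finset ℕ} (h : μ ∉ S) :
    z1 a (insert μ S) = z1 a S + if μ < a then 1 else 0 := by
  unfold z1
  rw [filter_insert]
  split_ifs
  · rw [card_insert_of_notMem (fun hh => h (mem_filter.mp hh).1)]
  · rfl

theorem z2_insert {a b μ : ℕ} {S : Finset ℕ} (h : μ ∉ S) :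
    z2 a b (insert μ S) = z2 a b S + if a ≤ μ ∧ μ < b then 1 else 0 := by
  unfold z2
  rw [filter_insert]
  split_ifs
  · rw [card_insert_of_notMem (fun hh => h (mem_filter.mp hh).1)]
  · rfl

theorem z3_insert {b μ : ℕ} {S : Finset ℕ} (h : μ ∉ S) :
    z3 b (insert μ S) = z3 b S + if b ≤ μ then 1 else 0 := by
  unfold z3
  rw [filter_insert]
  split_ifs
  · rw [card_insert_of_notMem (fun hh => h (mem_filter.mp hh).1)]
  · rfl

theorem z1_eq_zero {a : ℕ} {S : Finset ℕ} (h : ∀ v ∈ S, a ≤ v) : z1 a S = 0 := by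
  unfold z1
  rw [card_eq_zero, filter_eq_empty_iff]
  intro v hv
  exact not_lt.mpr (h v hv)

theorem z2_eq_zero {a b : ℕ} {S : Finset ℕ} (h : ∀ v ∈ S, b ≤ v) : z2 a b S = 0 := by
  unfold z2
  rw [card_eq_zero, filter_eq_empty_iff]
  intro v hv hh
  exact absurd hh.2 (not_lt.mpr (h v hv))

theorem thr_insert (b μ : ℕ) (V : Finset ℕ) : thr b (insert μ V) = max μ (thr b V) := by
  unfold thr
  rw [sup_insert]
  simp [max_assoc]

theorem le_thr (b : ℕ) (V : Finset ℕ) : b ≤ thr b V := le_max_right _ _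

theorem mem_le_thr (b : ℕ) {V : Finset ℕ} {v : ℕ} (h : v ∈ V) : v ≤ thr b V :=
  le_trans (le_sup (f := id) h) (le_max_left _ _)

theorem thr_empty (b : ℕ) : thr b ∅ = b := by simp [thr]

theorem z2_max {a t μ : ℕ} {U : Finset ℕ} (h : ∀ v ∈ U, μ < v) :
    z2 a (max μ t) U = z2 a t U := by
  unfold z2
  congr 1
  refine filter_congr (fun v hv => ?_)
  have := h v hv
  omega

theorem z3_max {t μ : ℕ} {U : Finset ℕ} (h : ∀ v ∈ U, μ < v) :
    z3 (max μ t) U = z3 t U := by
  unfold z3
  congr 1
  refine filter_congr (fun v hv => ?_)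
  have := h v hv
  omega

/-- The term of the subset sum. -/
noncomputable def term (c : ℚ⟦X⟧) (ε a b : ℕ) (f y : ℚ⟦X⟧) (U V : Finset ℕ) : ℚ :=
  ev (z3 b V) ((dl ^ z1 b V) f) *
    ev (z3 (thr b V) U + ε) ((dl ^ z2 a (thr b V) U) ((LL c ^ z1 a U) y))

/-- The subset-sum formula. -/
theorem subset_sum (c : ℚ⟦X⟧) (ε a b : ℕ) (hab : a ≤ b) (hε : ε ≤ 1) (S : Finset ℕ) :
    ∀ f y : ℚ⟦X⟧, (ε = 1 → coeff 0 y = 0) →
      ∑ V ∈ S.powerset, term c ε a b f y (S \ V) V =
        ev (z3 b S + ε) ((dl ^ z2 a b S) ((LL c ^ z1 a S) (f * y))) := by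
  induction S using Finset.induction_on_min with
  | empty =>
    intro f y hy
    simp only [powerset_empty, sum_singleton, term, z1, z2, z3, sdiff_self, bot_eq_empty,
      filter_empty, card_empty, pow_zero, Module.End.one_apply, zero_add]
    rcases Nat.le_one_iff_eq_zero_or_eq_one.mp hε with rfl | rfl
    · simp [ev_zero]
    · rw [ev_succ, ev_succ, ev_zero, ev_zero, ev_zero, RR_mul]
      simp only [map_add, map_smul, smul_eq_mul, coeff_zero_eq_constantCoeff, map_mul]
      have h1 := hy rfl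
      have h2 := coeff_zero_dl y
      simp only [coeff_zero_eq_constantCoeff] at h1 h2
      rw [h1, h2]
      ring
  | insert μ S hμ ih =>
    intro f y hy
    have hμS : μ ∉ S := fun h => lt_irrefl _ (hμ μ h)
    rw [sum_powerset_insert hμS]
    have e1 : ∀ V ∈ S.powerset, insert μ S \ V = insert μ (S \ V) := by
      intro V hV
      rw [insert_sdiff_of_notMem _ (fun h => hμS (mem_powerset.mp hV h))]
    have e2 : ∀ V ∈ S.powerset, insert μ S \ insert μ V = S \ V := by
      intro V _
      rw [insert_sdiff_insert, sdiff_insert_of_notMem hμS]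
    have hU : ∀ V : Finset ℕ, μ ∉ S \ V := fun V h => hμS (mem_sdiff.mp h).1
    have hU' : ∀ V : Finset ℕ, ∀ v ∈ S \ V, μ < v := fun V v h => hμ v (mem_sdiff.mp h).1
    have hV : ∀ V ∈ S.powerset, μ ∉ V := fun V hV h => hμS (mem_powerset.mp hV h)
    rw [z1_insert hμS, z2_insert hμS, z3_insert hμS]
    by_cases h1 : μ < a
    · have t1 : ∀ V ∈ S.powerset, term c ε a b f y (insert μ S \ V) V =
          term c ε a b f (LL c y) (S \ V) V := by
        intro V hVS
        have := le_thr b V
        rw [e1 V hVS, term, term, z1_insert (hU V), z2_insert (hU V), z3_insert (hU V),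
          if_pos h1, if_neg (show ¬ (a ≤ μ ∧ μ < thr b V) by omega),
          if_neg (show ¬ (thr b V ≤ μ) by omega), LL_pow_succ]
        rfl
      have t2 : ∀ V ∈ S.powerset, term c ε a b f y (insert μ S \ insert μ V) (insert μ V) =
          term c ε a b (dl f) y (S \ V) V := by
        intro V hVS
        rw [e2 V hVS, term, term, z1_insert (hV V hVS), z3_insert (hV V hVS), thr_insert,
          z2_max (hU' V), z3_max (hU' V), if_pos (show μ < b by omega),
          if_neg (show ¬ (b ≤ μ) by omega), dl_pow_succ]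
        rfl
      rw [sum_congr rfl t1, sum_congr rfl t2, ih f (LL c y) (fun h => by
        rw [LL_apply, map_add, coeff_zero_dl]
        simp only [coeff_zero_eq_constantCoeff, map_mul] at hy ⊢
        rw [hy h]; ring), ih (dl f) y hy, if_pos h1,
        if_neg (show ¬ (a ≤ μ ∧ μ < b) by omega), if_neg (show ¬ (b ≤ μ) by omega),
        LL_pow_succ, LL_mul, map_add, map_add, map_add]
      simp only [add_zero]
      ring
    · have hz : ∀ U : Finset ℕ, (∀ v ∈ U, μ < v) → z1 a U = 0 :=
        fun U h => z1_eq_zero (fun v hv => by have := h v hv; omega)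
      rw [if_neg h1, hz S hμ]
      simp only [hz S hμ] at ih
      simp only [pow_zero, Module.End.one_apply, add_zero] at ih ⊢
      by_cases h2 : μ < b
      · have t1 : ∀ V ∈ S.powerset, term c ε a b f y (insert μ S \ V) V =
            term c ε a b f (dl y) (S \ V) V := by
          intro V hVS
          have := le_thr b V
          rw [e1 V hVS, term, term, z1_insert (hU V), z2_insert (hU V), z3_insert (hU V),
            if_neg h1, if_pos (show a ≤ μ ∧ μ < thr b V by omega),
            if_neg (show ¬ (thr b V ≤ μ) by omega), dl_pow_succ, hz _ (hU' V)]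
          rfl
        have t2 : ∀ V ∈ S.powerset, term c ε a b f y (insert μ S \ insert μ V) (insert μ V) =
            term c ε a b (dl f) y (S \ V) V := by
          intro V hVS
          rw [e2 V hVS, term, term, z1_insert (hV V hVS), z3_insert (hV V hVS), thr_insert,
            z2_max (hU' V), z3_max (hU' V), if_pos h2, if_neg (show ¬ (b ≤ μ) by omega),
            dl_pow_succ]
          rfl
        rw [sum_congr rfl t1, sum_congr rfl t2, ih f (dl y) (fun _ => coeff_zero_dl y),
          ih (dl f) y hy, if_pos (show a ≤ μ ∧ μ < b by omega),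
          if_neg (show ¬ (b ≤ μ) by omega), dl_pow_succ, dl_mul, map_add, map_add]
        simp only [add_zero]
        ring
      · have hz2 : z2 a b S = 0 := z2_eq_zero (fun v hv => by have := hμ v hv; omega)
        have hz1 : ∀ V ∈ S.powerset, z1 b V = 0 := fun V hVS =>
          z1_eq_zero (fun v hv => by have := hμ v (mem_powerset.mp hVS hv); omega)
        have t1 : ∀ V ∈ S.powerset, term c ε a b f y (insert μ S \ V) V =
            term c ε a b (f - C (coeff 0 f)) (dl y) (S \ V) V +
              if V = ∅ then coeff 0 f * ev (z3 b S + ε) (RR y) else 0 := by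
          intro V hVS
          rw [e1 V hVS, term, term, z1_insert (hU V), z2_insert (hU V), z3_insert (hU V),
            if_neg h1, hz _ (hU' V), hz1 V hVS]
          simp only [pow_zero, Module.End.one_apply, add_zero]
          rcases V.eq_empty_or_nonempty with rfl | ⟨v, hv⟩
          · rw [thr_empty, sdiff_empty, hz2, if_neg (show ¬ (a ≤ μ ∧ μ < b) by omega),
              if_pos (show b ≤ μ by omega), if_pos rfl]
            have : z3 b ∅ = 0 := by simp [z3]
            rw [this, ev_zero, ev_zero, ← ev_succ]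
            simp only [add_zero, pow_zero, Module.End.one_apply, map_sub, coeff_zero_C, sub_self,
              zero_mul, zero_add]
            rw [show z3 b S + 1 + ε = z3 b S + ε + 1 by ring]
          · have h3 := mem_le_thr b hv
            have h4 := hμ v (mem_powerset.mp hVS hv)
            have h5 : V ≠ ∅ := ne_empty_of_mem hv
            rw [if_pos (show a ≤ μ ∧ μ < thr b V by omega),
              if_neg (show ¬ (thr b V ≤ μ) by omega), if_neg h5, dl_pow_succ]
            obtain ⟨k, hk⟩ : ∃ k, z3 b V = k + 1 := by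
              refine Nat.exists_eq_succ_of_ne_zero (card_pos.mpr ⟨v, ?_⟩).ne'
              exact mem_filter.mpr ⟨hv, by omega⟩
            rw [hk, map_sub, ev_succ_C]
            simp
        have t2 : ∀ V ∈ S.powerset, term c ε a b f y (insert μ S \ insert μ V) (insert μ V) =
            term c ε a b (RR f) y (S \ V) V := by
          intro V hVS
          rw [e2 V hVS, term, term, z1_insert (hV V hVS), z3_insert (hV V hVS), thr_insert,
            z2_max (hU' V), z3_max (hU' V), if_neg h2, if_pos (show b ≤ μ by omega), ev_succ,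
            hz1 V hVS]
          rfl
        rw [sum_congr rfl t1, sum_congr rfl t2, sum_add_distrib,
          ih _ (dl y) (fun _ => coeff_zero_dl y), ih (RR f) y hy, sum_ite_eq',
          if_pos (empty_mem_powerset S), if_neg (show ¬ (a ≤ μ ∧ μ < b) by omega),
          if_pos (show b ≤ μ by omega), hz2]
        simp only [pow_zero, Module.End.one_apply, add_zero]
        rw [show z3 b S + 1 + ε = z3 b S + ε + 1 by ring, ev_succ, RR_mul, map_add, map_add,
          map_smul, smul_eq_mul]
        ring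

end Pool.Agent.H970Z.BS
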