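import Pool.Agent.H970Z.BS.Lists

namespace Pool.Agent.H970Z.BS

open PowerSeries Finset

theorem z_sum {a t : ℕ} (h : a ≤ t) (U : Finset ℕ) : z1 a U + z2 a t U + z3 t U = U.card := by
  induction U using Finset.induction_on with
  | empty => simp [z1, z2, z3]
  | insert μ U hμ ih =>
    rw [z1_insert hμ, z2_insert hμ, z3_insert hμ, card_insert_of_notMem hμ, ← ih]
    split_ifs <;> omega

theorem ev_dl_one (j m : ℕ) : ev m ((dl ^ j) 1) = if j + m = 0 then 1 else 0 := by
  cases j with
  | zero =>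
    cases m with
    | zero => simp [ev_zero]
    | succ m =>
      have := ev_succ_C m 1
      simpa using this
  | succ j => rw [dl_pow_succ, dl_one]; simp

theorem z2_self (b : ℕ) (S : Finset ℕ) : z2 b b S = 0 := by
  unfold z2
  rw [card_eq_zero, filter_eq_empty_iff]
  intro v _ h
  omega

/-- The closed formula for the three-zone count. -/
def Formula (U : Finset ℕ) : Prop :=
  ∀ a t : ℕ, a ≤ t → (cnt U (fun w => Av w ∧ Tops t w ∧ Fst a w) : ℚ) =
    ev (z3 t U + 1) ((dl ^ z2 a t U) ((dl ^ z1 a U) X)) -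
      if z1 a U = 0 then 0 else ev (z3 t U) ((dl ^ z2 a t U) ((LL H ^ z1 a U) 1))

theorem Formula.nonempty {U : Finset ℕ} (h : Formula U) {a t : ℕ} (hat : a ≤ t) :
    (cnt U (fun w => Av w ∧ Tops t w ∧ w ≠ [] ∧ Fst a w) : ℚ) =
    ev (z3 t U + 1) ((dl ^ z2 a t U) ((dl ^ z1 a U) X)) -
      ev (z3 t U) ((dl ^ z2 a t U) ((LL H ^ z1 a U) 1)) := by
  have hz := z_sum hat U
  rcases U.eq_empty_or_nonempty with rfl | ⟨v, hv⟩
  · have h1 := h a t hat
    have e1 : z1 a ∅ = 0 := by simp [z1]
    have e2 : z2 a t ∅ = 0 := by simp [z2]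
    have e3 : z3 t ∅ = 0 := by simp [z3]
    rw [e1, e2, e3] at h1 ⊢
    simp only [cnt, Perms_empty, filter_singleton, Av, Tops, Fst] at h1 ⊢
    simp only [and_self, if_true, card_singleton, Nat.cast_one, pow_zero, Module.End.one_apply,
      sub_zero, zero_add] at h1
    simp [← h1, ev_zero]
  · have e : cnt U (fun w => Av w ∧ Tops t w ∧ w ≠ [] ∧ Fst a w) =
        cnt U (fun w => Av w ∧ Tops t w ∧ Fst a w) := by
      refine cnt_congr (fun w hw => ?_)
      have : w ≠ [] := List.ne_nil_of_mem (((mem_Perms.mp hw).2 v).mpr hv)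
      simp [this]
    rw [e, h a t hat]
    split_ifs with h0
    · have := card_pos.mpr ⟨v, hv⟩
      rw [h0, pow_zero (LL H), Module.End.one_apply, ev_dl_one, if_neg (by omega)]
    · rfl

theorem step {μ : ℕ} {S : Finset ℕ} (hμ : ∀ x ∈ S, μ < x) (hF : ∀ U ⊆ S, Formula U)
    {a b : ℕ} (hab : a ≤ b) (f : ℚ⟦X⟧) (Q Q₂ : List ℕ → Prop)
    (hQ : ∀ σ τ : List ℕ, (∀ x ∈ σ, μ < x) → (∀ x ∈ τ, μ < x) → (Q (σ ++ μ :: τ) ↔ Q₂ τ))
    (hf : ∀ V ⊆ S, (cnt V (fun w => (Av w ∧ Tops b w ∧ Fst b w) ∧ Q₂ w) : ℚ) =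
      ev (z3 b V) ((dl ^ z1 b V) f)) :
    (cnt (insert μ S) (fun w => (Av w ∧ Tops b w ∧ Fst a w) ∧ Q w) : ℚ) =
      ev (z3 b S + 1) ((dl ^ z2 a b S) ((dl ^ z1 a S) (f * X))) -
        if μ < a then ev (z3 b S) ((dl ^ z2 a b S) ((LL H ^ z1 a S) f)) else 0 := by
  have hμS : μ ∉ S := fun h => lt_irrefl _ (hμ μ h)
  have s1 := subset_sum 0 1 a b hab le_rfl S f X (fun _ => by simp)
  have s2 := subset_sum H 0 a b hab (Nat.zero_le _) S f 1 (fun h => absurd h (by simp))
  rw [LL_zero] at s1
  rw [mul_one, add_zero] at s2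
  have base : ∀ V ⊆ S, ∀ σ ∈ Perms (S \ V), ∀ τ ∈ Perms V,
      ((Av (σ ++ μ :: τ) ∧ Tops b (σ ++ μ :: τ) ∧ Fst a (σ ++ μ :: τ)) ∧ Q (σ ++ μ :: τ) ↔
        (Av σ ∧ Tops (thr b V) σ ∧ Fst a (σ ++ μ :: τ)) ∧
          ((Av τ ∧ Tops b τ ∧ Fst b τ) ∧ Q₂ τ)) := by
    intro V hV σ hσ τ hτ
    have h1 : ∀ x ∈ σ, μ < x := fun x hx =>
      hμ x (mem_sdiff.mp (((mem_Perms.mp hσ).2 x).mp hx)).1
    have h2 : ∀ x ∈ τ, μ < x := fun x hx => hμ x (hV (((mem_Perms.mp hτ).2 x).mp hx))
    rw [av_append h2 σ h1, tops_append h2 σ h1, hQ σ τ h1 h2, tops_thr]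
    simp only [(mem_Perms.mp hτ).2]
    tauto
  by_cases h1 : μ < a
  · rw [if_pos h1, cnt_insert hμS _ (fun V σ => Av σ ∧ Tops (thr b V) σ ∧ σ ≠ [] ∧ Fst a σ)
      (fun w => (Av w ∧ Tops b w ∧ Fst b w) ∧ Q₂ w), ← s1, ← s2, ← sum_sub_distrib]
    · push_cast
      refine sum_congr rfl (fun V hV => ?_)
      rw [mem_powerset] at hV
      rw [hf V hV, (hF _ sdiff_subset).nonempty (hab.trans (le_thr b V)), term, term, LL_zero]
      simp only [add_zero]
      ring
    · intro V hV σ hσ τ hτ
      rw [base V hV σ hσ τ hτ]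
      have : Fst a (σ ++ μ :: τ) ↔ σ ≠ [] ∧ Fst a σ := by
        cases σ with
        | nil => simp [Fst, h1]
        | cons x l => simp [Fst]
      rw [this]
  · rw [if_neg h1, cnt_insert hμS _ (fun V σ => Av σ ∧ Tops (thr b V) σ ∧ Fst a σ)
      (fun w => (Av w ∧ Tops b w ∧ Fst b w) ∧ Q₂ w), ← s1, sub_zero]
    · push_cast
      refine sum_congr rfl (fun V hV => ?_)
      rw [mem_powerset] at hV
      rw [hf V hV, hF _ sdiff_subset a _ (hab.trans (le_thr b V)), term, LL_zero, if_pos, sub_zero]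
      exact z1_eq_zero (fun v hv => by have := hμ v (mem_sdiff.mp hv).1; omega)
    · intro V hV σ hσ τ hτ
      rw [base V hV σ hσ τ hτ]
      have : Fst a (σ ++ μ :: τ) ↔ Fst a σ := by
        cases σ with
        | nil => simp only [List.nil_append, Fst, iff_true]; omega
        | cons x l => simp [Fst]
      rw [this]

theorem Formula.diag {V : Finset ℕ} (h : Formula V) (b : ℕ) :
    (cnt V (fun w => Av w ∧ Tops b w ∧ Fst b w) : ℚ) = ev (z3 b V) ((dl ^ z1 b V) H) := by
  rw [h b b le_rfl, z2_self]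
  simp only [pow_zero, Module.End.one_apply]
  split_ifs with h0
  · rw [h0, ev_succ, sub_zero]
    simp only [pow_zero, Module.End.one_apply]
    have := RR_X_mul 1
    rw [mul_one, dl_X, ← H_eq] at this
    rw [this]
  · have := key (z1 b V) (z3 b V) 1
    rw [mul_one] at this
    rw [this, dl_pow_succ, dl_X]
    obtain ⟨l, hl⟩ := Nat.exists_eq_succ_of_ne_zero h0
    conv_rhs => rw [H_eq, map_add, hl, Nat.succ_eq_add_one, dl_pow_succ _ 1, dl_one, map_zero,
      zero_add, ← Nat.succ_eq_add_one, ← hl]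

theorem dl_pow_comm (i j : ℕ) (f : ℚ⟦X⟧) :
    (dl ^ j) ((dl ^ i) (dl f)) = (dl ^ (j + 1)) ((dl ^ i) f) := by
  rw [← dl_pow_succ, ← Module.End.mul_apply, ← Module.End.mul_apply, ← pow_add, ← pow_add]
  congr 2
  ring

theorem formula (S : Finset ℕ) : Formula S := by
  induction S using Finset.strongInduction with
  | H S ih =>
    rcases S.eq_empty_or_nonempty with rfl | hne
    · intro a t _
      have e1 : z1 a ∅ = 0 := by simp [z1]
      have e2 : z2 a t ∅ = 0 := by simp [z2]
      have e3 : z3 t ∅ = 0 := by simp [z3]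
      rw [e1, e2, e3, ev_succ, ev_zero]
      have := RR_X_mul 1
      rw [mul_one] at this
      simp only [pow_zero, Module.End.one_apply, this, map_add, coeff_zero_dl]
      simp [cnt, Perms_empty, filter_singleton, Av, Tops, Fst]
    · set μ := S.min' hne
      set S₀ := S.erase μ with hS₀
      have hS : S = insert μ S₀ := (insert_erase (S.min'_mem hne)).symm
      have hμ : ∀ x ∈ S₀, μ < x := fun x hx =>
        lt_of_le_of_ne (S.min'_le x (mem_of_mem_erase hx)) (ne_of_mem_erase hx).symm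
      have hμS : μ ∉ S₀ := notMem_erase _ _
      have hF : ∀ U ⊆ S₀, Formula U := fun U hU =>
        ih U (lt_of_le_of_lt hU (erase_ssubset (S.min'_mem hne)))
      intro a b hab
      have := step hμ hF hab H (fun _ => True) (fun _ => True) (fun _ _ _ _ => Iff.rfl)
        (fun V hV => by simpa using (hF V hV).diag b)
      simp only [and_true] at this
      rw [hS, this, z1_insert hμS, z2_insert hμS, z3_insert hμS, mul_comm H X, ← dl_X]
      by_cases h1 : μ < a
      · rw [if_pos h1, if_pos h1, if_neg (show ¬ (a ≤ μ ∧ μ < b) by omega),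
          if_neg (show ¬ (b ≤ μ) by omega), if_neg (by omega), dl_pow_succ, LL_pow_succ,
          LL_apply H 1, dl_one]
        simp
      · have hz : z1 a S₀ = 0 := z1_eq_zero (fun v hv => by have := hμ v hv; omega)
        rw [if_neg h1, if_neg h1, hz, if_pos rfl]
        by_cases h2 : μ < b
        · rw [if_pos (show a ≤ μ ∧ μ < b by omega), if_neg (show ¬ (b ≤ μ) by omega), dl_pow_succ]
          simp
        · have hz2 : z2 a b S₀ = 0 := z2_eq_zero (fun v hv => by have := hμ v hv; omega)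
          rw [if_neg (show ¬ (a ≤ μ ∧ μ < b) by omega), if_pos (show b ≤ μ by omega), hz2,
            ev_succ (z3 b S₀ + 1)]
          have h3 := RR_X_mul 1
          rw [mul_one] at h3
          have h4 := ev_succ_C (z3 b S₀) 1
          simp only [pow_zero, Module.End.one_apply, add_zero, h3, map_add, map_one] at h4 ⊢
          rw [h4, zero_add]

/-- The number of avoiding arrangements. -/
theorem count_av (S : Finset ℕ) : (cnt S Av : ℚ) = ev S.card H := by
  have := (formula S).diag 0
  have e1 : z1 0 S = 0 := by simp [z1]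
  have e3 : z3 0 S = S.card := by simp [z3]
  rw [e1, e3] at this
  simpa [tops_zero, fst_zero] using this

theorem refined (S : Finset ℕ) : ∀ b k : ℕ,
    (cnt S (fun w => (Av w ∧ Tops b w ∧ Fst b w) ∧ rminL w = k) : ℚ) =
      ev (z3 b S) ((dl ^ z1 b S) (X ^ k)) := by
  induction S using Finset.strongInduction with
  | H S ih =>
    rcases S.eq_empty_or_nonempty with rfl | hne
    · intro b k
      have e1 : z1 b ∅ = 0 := by simp [z1]
      have e3 : z3 b ∅ = 0 := by simp [z3]
      rw [e1, e3, ev_zero]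
      cases k <;> simp [cnt, Perms_empty, filter_singleton, Av, Tops, Fst, rminL]
    · set μ := S.min' hne
      set S₀ := S.erase μ with hS₀
      have hS : S = insert μ S₀ := (insert_erase (S.min'_mem hne)).symm
      have hμ : ∀ x ∈ S₀, μ < x := fun x hx =>
        lt_of_le_of_ne (S.min'_le x (mem_of_mem_erase hx)) (ne_of_mem_erase hx).symm
      have hμS : μ ∉ S₀ := notMem_erase _ _
      intro b k
      cases k with
      | zero =>
        have := step hμ (fun U _ => formula U) (le_refl b) 0 (fun w => rminL w = 0)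
          (fun _ => False) (fun σ τ h1 h2 => by rw [rminL_append h2 σ h1]; simp)
          (fun V hV => by simp [cnt])
        have hz := z_sum (le_refl b) S
        have hc := card_pos.mpr hne
        rw [z2_self] at hz
        rw [pow_zero, ev_dl_one, if_neg (by omega), hS, this]
        simp
      | succ k =>
        have := step hμ (fun U _ => formula U) (le_refl b) (X ^ k) (fun w => rminL w = k + 1)
          (fun w => rminL w = k) (fun σ τ h1 h2 => by rw [rminL_append h2 σ h1]; simp)
          (fun V hV => ih V (lt_of_le_of_lt hV (erase_ssubset (S.min'_mem hne))) b k)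
        rw [hS, this, z1_insert hμS, z3_insert hμS, z2_self, mul_comm (X ^ k) X, pow_succ' X k]
        simp only [pow_zero, Module.End.one_apply]
        by_cases h1 : μ < b
        · rw [if_pos h1, if_pos h1, if_neg (show ¬ (b ≤ μ) by omega), key]
          rfl
        · rw [if_neg h1, if_neg h1, if_pos (show b ≤ μ by omega), sub_zero]
          rfl

/-- The number of avoiding arrangements with `k` right-to-left minima. -/
theorem count_av_rmin (S : Finset ℕ) (k : ℕ) :
    (cnt S (fun w => Av w ∧ rminL w = k) : ℚ) = ev S.card (X ^ k) := by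
  have := refined S 0 k
  have e1 : z1 0 S = 0 := by simp [z1]
  have e3 : z3 0 S = S.card := by simp [z3]
  rw [e1, e3] at this
  simpa [tops_zero, fst_zero] using this

end Pool.Agent.H970Z.BS
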