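import Mathlib

/-!
Definitions for MP_b374f8_co: the vincular pattern 23-1-4 and the powered Catalan numbers.
-/

namespace Pool.Agent.H970Z.BS

/-- `π` contains the vincular pattern 23-1-4: there are positions `i`, `i + 1 < j < k` with
`π j < π i < π (i + 1) < π k`. -/
def Contains {n : ℕ} (π : Equiv.Perm (Fin n)) : Prop :=
  ∃ i i' j k : Fin n, i'.val = i.val + 1 ∧ i' < j ∧ j < k ∧ π j < π i ∧ π i < π i' ∧ π i' < π k

/-- The labels of the children of a vertex with label `k`: one `1`, then `i` copies of `i` for each
`2 ≤ i ≤ k`, then one `k + 1`. -/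
def children (k : ℕ) : List ℕ :=
  [1] ++ (List.range' 2 (k - 1)).flatMap (fun i => List.replicate i i) ++ [k + 1]

/-- The labels of the vertices at level `n` of the tree; the root has label `1` and level `1`. -/
def level : ℕ → List ℕ
  | 0 => []
  | 1 => [1]
  | n + 2 => (level (n + 1)).flatMap children

/-- The powered Catalan number `p n`: the number of vertices at level `n`. -/
def poweredCatalan (n : ℕ) : ℕ := (level n).length

end Pool.Agent.H970Z.BS
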