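import Pool.Agent.H970Z.BS.Alg

/-!
Counting arrangements of a finite set of naturals that avoid 23-1-4.
-/

namespace Pool.Agent.H970Z.BS

open PowerSeries Finset

/-- Avoidance of 23-1-4 for a list. -/
def Av : List ℕ → Prop
  | [] => True
  | [_] => True
  | a :: b :: l => (a < b → ∀ c d, List.Sublist [c, d] l → c < a → d ≤ b) ∧ Av (b :: l)

/-- All ascent tops are at least `t`. -/
def Tops (t : ℕ) : List ℕ → Prop
  | [] => True
  | [_] => True
  | a :: b :: l => (a < b → t ≤ b) ∧ Tops t (b :: l)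

/-- The first entry is at least `t`. -/
def Fst (t : ℕ) : List ℕ → Prop
  | [] => True
  | a :: _ => t ≤ a

/-- The number of right-to-left minima. -/
def rminL : List ℕ → ℕ
  | [] => 0
  | a :: l => rminL l + if ∀ x ∈ l, a < x then 1 else 0

theorem av_cons {μ : ℕ} {τ : List ℕ} (hτ : ∀ x ∈ τ, μ < x) : Av (μ :: τ) ↔ Av τ := by
  cases τ with
  | nil => simp [Av]
  | cons b l =>
    simp only [Av, and_iff_right_iff_imp]
    intro _ _ c d hcd hc
    have := hτ c (List.mem_cons_of_mem _ (hcd.subset (by simp)))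
    omega

theorem av_append {μ : ℕ} {τ : List ℕ} (hτ : ∀ x ∈ τ, μ < x) :
    ∀ σ : List ℕ, (∀ x ∈ σ, μ < x) → (Av (σ ++ μ :: τ) ↔ Av σ ∧ Av τ ∧ ∀ d ∈ τ, Tops d σ)
  | [], _ => by simp [Av, Tops, av_cons hτ]
  | [a], h => by
    have := h a (by simp)
    simp only [List.cons_append, List.nil_append, Av, Tops, av_cons hτ]
    constructor
    · intro h; exact ⟨trivial, h.2, fun _ _ => trivial⟩
    · intro h; exact ⟨fun h' => by omega, h.2.1⟩
  | a :: b :: l, h => by
    have ih := av_append hτ (b :: l) (fun x hx => h x (List.mem_cons_of_mem _ hx))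
    have ha := h a (by simp)
    have hb := h b (by simp)
    simp only [List.cons_append] at ih
    simp only [List.cons_append, Av, Tops, ih]
    constructor
    · rintro ⟨h1, h2, h3, h4⟩
      refine ⟨⟨fun hab c d hcd => h1 hab c d (hcd.trans (List.sublist_append_left _ _)), h2⟩, h3,
        fun d hd => ⟨fun hab => h1 hab μ d ?_ ha, h4 d hd⟩⟩
      exact (List.Sublist.cons_cons μ (List.singleton_sublist.mpr hd)).trans
        (List.sublist_append_right _ _)
    · rintro ⟨⟨h1, h2⟩, h3, h4⟩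
      refine ⟨fun hab c d hcd hc => ?_, h2, h3, fun d hd => (h4 d hd).2⟩
      obtain ⟨l₁, l₂, e, s1, s2⟩ := List.sublist_append_iff.mp hcd
      by_cases hl : l₂ = []
      · subst hl
        rw [List.append_nil] at e
        exact h1 hab c d (e ▸ s1) hc
      · have hd : d ∈ l₂ := by
          have h5 : [c, d].getLast (by simp) = l₂.getLast hl := by
            simp only [e]
            exact List.getLast_append_of_ne_nil _ hl
          have h6 := List.getLast_mem hl
          rw [← h5] at h6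
          simpa using h6
        rcases List.mem_cons.mp (s2.subset hd) with h7 | h7
        · omega
        · exact (h4 d h7).1 hab

theorem tops_cons {t μ : ℕ} {τ : List ℕ} (hτ : ∀ x ∈ τ, μ < x) :
    Tops t (μ :: τ) ↔ Fst t τ ∧ Tops t τ := by
  cases τ with
  | nil => simp [Tops, Fst]
  | cons b l =>
    have := hτ b (by simp)
    simp [Tops, Fst, this]

theorem tops_append {t μ : ℕ} {τ : List ℕ} (hτ : ∀ x ∈ τ, μ < x) :
    ∀ σ : List ℕ, (∀ x ∈ σ, μ < x) →
      (Tops t (σ ++ μ :: τ) ↔ Tops t σ ∧ Fst t τ ∧ Tops t τ)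
  | [], _ => by simp [Tops, tops_cons hτ]
  | [a], h => by
    have := h a (by simp)
    simp only [List.cons_append, List.nil_append, Tops, tops_cons hτ]
    constructor
    · intro h; exact ⟨trivial, h.2⟩
    · intro h; exact ⟨fun h' => by omega, h.2⟩
  | a :: b :: l, h => by
    have ih := tops_append (t := t) hτ (b :: l) (fun x hx => h x (List.mem_cons_of_mem _ hx))
    simp only [List.cons_append] at ih
    simp only [List.cons_append, Tops, ih, and_assoc]

theorem rminL_append {μ : ℕ} {τ : List ℕ} (hτ : ∀ x ∈ τ, μ < x) :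
    ∀ σ : List ℕ, (∀ x ∈ σ, μ < x) → rminL (σ ++ μ :: τ) = rminL τ + 1
  | [], _ => by simp only [List.nil_append, rminL]; rw [if_pos hτ]
  | a :: l, h => by
    have ih := rminL_append hτ l (fun x hx => h x (List.mem_cons_of_mem _ hx))
    have ha := h a (by simp)
    simp only [List.cons_append, rminL, ih]
    rw [if_neg]
    intro hh
    have := hh μ (by simp)
    omega

theorem tops_max (s t : ℕ) : ∀ σ : List ℕ, Tops (max s t) σ ↔ Tops s σ ∧ Tops t σ
  | [] => by simp [Tops]
  | [_] => by simp [Tops]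
  | a :: b :: l => by
    simp only [Tops, tops_max s t (b :: l), max_le_iff]
    tauto

theorem tops_zero : ∀ σ : List ℕ, Tops 0 σ
  | [] => trivial
  | [_] => trivial
  | _ :: b :: l => ⟨fun _ => Nat.zero_le _, tops_zero (b :: l)⟩

theorem fst_zero : ∀ σ : List ℕ, Fst 0 σ
  | [] => trivial
  | _ :: _ => Nat.zero_le _

theorem tops_thr (b : ℕ) (V : Finset ℕ) (σ : List ℕ) :
    Tops (thr b V) σ ↔ Tops b σ ∧ ∀ d ∈ V, Tops d σ := by
  induction V using Finset.induction_on with
  | empty => simp [thr_empty]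
  | insert μ V _ ih =>
    rw [thr_insert, tops_max, ih]
    simp only [mem_insert, forall_eq_or_imp]
    tauto

/-- The arrangements of a finite set. -/
noncomputable def Perms (S : Finset ℕ) : Finset (List ℕ) := S.toList.permutations.toFinset

theorem mem_Perms {S : Finset ℕ} {w : List ℕ} : w ∈ Perms S ↔ w.Nodup ∧ ∀ x, x ∈ w ↔ x ∈ S := by
  unfold Perms
  rw [List.mem_toFinset, List.mem_permutations]
  constructor
  · intro h
    exact ⟨h.nodup_iff.mpr S.nodup_toList, fun x => by rw [h.mem_iff, mem_toList]⟩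
  · rintro ⟨h1, h2⟩
    exact (List.perm_ext_iff_of_nodup h1 S.nodup_toList).mpr (fun x => by rw [h2, mem_toList])

theorem Perms_empty : Perms ∅ = {[]} := by
  simp [Perms]

open Classical in
/-- The number of arrangements of `S` with the property `P`. -/
noncomputable def cnt (S : Finset ℕ) (P : List ℕ → Prop) : ℕ := ((Perms S).filter P).card

theorem cnt_congr {S : Finset ℕ} {P Q : List ℕ → Prop} (h : ∀ w ∈ Perms S, P w ↔ Q w) :
    cnt S P = cnt S Q := by
  classical
  unfold cnt
  congr 1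
  ext w
  simp only [mem_filter]
  exact and_congr_right (h w)

theorem cnt_insert {μ : ℕ} {S : Finset ℕ} (hμ : μ ∉ S) (P : List ℕ → Prop)
    (P₁ : Finset ℕ → List ℕ → Prop) (P₂ : List ℕ → Prop)
    (h : ∀ V ⊆ S, ∀ σ ∈ Perms (S \ V), ∀ τ ∈ Perms V, P (σ ++ μ :: τ) ↔ P₁ V σ ∧ P₂ τ) :
    cnt (insert μ S) P = ∑ V ∈ S.powerset, cnt V P₂ * cnt (S \ V) (P₁ V) := by
  classical
  unfold cnt
  simp only [← card_product]
  rw [← card_sigma]
  symm
  refine card_bij (fun x _ => x.2.2 ++ μ :: x.2.1) ?_ ?_ ?_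
  · rintro ⟨V, τ, σ⟩ hx
    simp only [mem_sigma, mem_powerset, mem_product, mem_filter] at hx
    obtain ⟨hV, ⟨hτ, h2⟩, hσ, h1⟩ := hx
    rw [mem_filter]
    refine ⟨?_, (h V hV σ hσ τ hτ).mpr ⟨h1, h2⟩⟩
    rw [mem_Perms] at hσ hτ ⊢
    refine ⟨?_, fun x => ?_⟩
    · rw [List.nodup_append, List.nodup_cons]
      refine ⟨hσ.1, ⟨fun hh => hμ (hV ((hτ.2 μ).mp hh)), hτ.1⟩, fun x hx y hy hxy => ?_⟩
      have h3 := mem_sdiff.mp ((hσ.2 x).mp hx)
      rcases List.mem_cons.mp hy with h4 | h4
      · exact hμ (h4 ▸ hxy ▸ h3.1)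
      · exact h3.2 (hxy ▸ (hτ.2 y).mp h4)
    · simp only [List.mem_append, List.mem_cons, hσ.2, hτ.2, mem_sdiff, mem_insert]
      have := @hV x
      tauto
  · rintro ⟨V, τ, σ⟩ hx ⟨V', τ', σ'⟩ hx' e
    simp only [mem_sigma, mem_powerset, mem_product, mem_filter, mem_Perms] at hx hx'
    have n1 : μ ∉ σ := fun hh => hμ (mem_sdiff.mp ((hx.2.2.1.2 μ).mp hh)).1
    have n2 : μ ∉ τ := fun hh => hμ (hx.1 ((hx.2.1.1.2 μ).mp hh))
    change σ ++ μ :: τ = σ' ++ μ :: τ' at e
    obtain ⟨e1, -, e2⟩ := (List.append_cons_inj_of_notMem n1 n2).mp e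
    subst e1 e2
    have : V = V' := by
      ext x
      rw [← hx.2.1.1.2 x, ← hx'.2.1.1.2 x]
    subst this
    rfl
  · intro w hw
    rw [mem_filter, mem_Perms] at hw
    obtain ⟨⟨hn, hm⟩, hP⟩ := hw
    obtain ⟨σ, τ, rfl⟩ := List.append_of_mem ((hm μ).mpr (mem_insert_self _ _))
    rw [List.nodup_append, List.nodup_cons] at hn
    have hV : τ.toFinset ⊆ S := by
      intro x hx
      rw [List.mem_toFinset] at hx
      rcases mem_insert.mp ((hm x).mp (by simp [hx])) with h1 | h1
      · exact absurd (h1 ▸ hx) hn.2.1.1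
      · exact h1
    have hτ : τ ∈ Perms τ.toFinset := mem_Perms.mpr ⟨hn.2.1.2, fun x => by simp⟩
    have hσ : σ ∈ Perms (S \ τ.toFinset) := by
      refine mem_Perms.mpr ⟨hn.1, fun x => ?_⟩
      rw [mem_sdiff, List.mem_toFinset]
      constructor
      · intro hx
        refine ⟨?_, fun hh => hn.2.2 x hx x (List.mem_cons_of_mem _ hh) rfl⟩
        rcases mem_insert.mp ((hm x).mp (by simp [hx])) with h1 | h1
        · exact absurd h1 (hn.2.2 x hx μ (by simp))
        · exact h1
      · rintro ⟨h1, h2⟩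
        have := (hm x).mpr (mem_insert_of_mem h1)
        simp only [List.mem_append, List.mem_cons] at this
        rcases this with h3 | h3 | h3
        · exact h3
        · exact absurd (h3 ▸ h1) hμ
        · exact absurd h3 h2
    have := (h _ hV σ hσ τ hτ).mp hP
    refine ⟨⟨τ.toFinset, τ, σ⟩, ?_, rfl⟩
    simp only [mem_sigma, mem_powerset, mem_product, mem_filter]
    exact ⟨hV, ⟨hτ, this.2⟩, hσ, this.1⟩

end Pool.Agent.H970Z.BS
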