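import Pool.Agent.H970Z.BS.Defs
import Pool.Agent.H970Z.BS.Count

namespace Pool.Agent.H970Z.BS

open PowerSeries Finset

theorem pair_sublist {c d : ℕ} : ∀ l : List ℕ, List.Sublist [c, d] l ↔
    ∃ j k, j < k ∧ k < l.length ∧ l.getD j 0 = c ∧ l.getD k 0 = d
  | [] => by simp
  | x :: l => by
    rw [List.sublist_cons_iff, pair_sublist l]
    constructor
    · rintro (⟨j, k, h1, h2, h3, h4⟩ | ⟨r, h1, h2⟩)
      · exact ⟨j + 1, k + 1, by omega, by simpa using h2, by simpa using h3, by simpa using h4⟩
      · obtain ⟨rfl, rfl⟩ := List.cons.inj h1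
        obtain ⟨k, hk, e⟩ := List.getElem_of_mem (List.singleton_sublist.mp h2)
        refine ⟨0, k + 1, by omega, by simpa using hk, by simp, ?_⟩
        simp [hk, e]
    · rintro ⟨j, k, h1, h2, h3, h4⟩
      obtain ⟨k, rfl⟩ : ∃ k', k = k' + 1 := ⟨k - 1, by omega⟩
      have hk : k < l.length := by simpa using h2
      cases j with
      | zero =>
        right
        refine ⟨[d], by simpa using h3.symm, List.singleton_sublist.mpr ?_⟩
        rw [← h4]
        simp [hk]
      | succ j =>
        left
        exact ⟨j, k, by omega, hk, by simpa using h3, by simpa using h4⟩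

theorem av_iff : ∀ w : List ℕ, Av w ↔ ∀ i j k, i + 1 < j → j < k → k < w.length →
    w.getD j 0 < w.getD i 0 → w.getD i 0 < w.getD (i + 1) 0 → w.getD k 0 ≤ w.getD (i + 1) 0
  | [] => by simp [Av]
  | [_] => by
    simp only [Av, List.length_singleton, true_iff]
    intro i j k h1 h2 h3
    omega
  | a :: b :: l => by
    rw [Av, av_iff (b :: l)]
    constructor
    · rintro ⟨h1, h2⟩ i j k hij hjk hk
      obtain ⟨j, rfl⟩ : ∃ j', j = j' + 1 := ⟨j - 1, by omega⟩
      obtain ⟨k, rfl⟩ : ∃ k', k = k' + 1 := ⟨k - 1, by omega⟩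
      cases i with
      | zero =>
        obtain ⟨j, rfl⟩ : ∃ j', j = j' + 1 := ⟨j - 1, by omega⟩
        obtain ⟨k, rfl⟩ : ∃ k', k = k' + 1 := ⟨k - 1, by omega⟩
        simp only [List.getD_cons_succ, List.getD_cons_zero]
        intro h3 h4
        exact h1 h4 _ _ ((pair_sublist l).mpr ⟨j, k, by omega, by simpa using hk, rfl, rfl⟩) h3
      | succ i =>
        simp only [List.getD_cons_succ (n := i + 1), List.getD_cons_succ (n := j),
          List.getD_cons_succ (n := k), List.getD_cons_succ (x := a) (n := i)]
        exact h2 i j k (by omega) (by omega) (by simpa using hk)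
    · intro h
      refine ⟨fun hab c d hcd hc => ?_, fun i j k hij hjk hk => ?_⟩
      · obtain ⟨j, k, h1, h2, rfl, rfl⟩ := (pair_sublist l).mp hcd
        have := h 0 (j + 2) (k + 2) (by omega) (by omega) (by simpa using h2)
        simp only [List.getD_cons_succ, List.getD_cons_zero] at this
        exact this hc hab
      · have := h (i + 1) (j + 1) (k + 1) (by omega) (by omega) (by simpa using hk)
        simp only [List.getD_cons_succ (n := i + 1), List.getD_cons_succ (n := j),
          List.getD_cons_succ (n := k), List.getD_cons_succ (x := a) (n := i)] at this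
        exact this

/-- The one-line notation of a permutation. -/
def toL {n : ℕ} (π : Equiv.Perm (Fin n)) : List ℕ := List.ofFn (fun i => (π i : ℕ))

theorem toL_getD {n : ℕ} (π : Equiv.Perm (Fin n)) (i : ℕ) (h : i < n) :
    (toL π).getD i 0 = (π ⟨i, h⟩ : ℕ) := by
  simp [toL, h]

theorem av_toL {n : ℕ} (π : Equiv.Perm (Fin n)) : Av (toL π) ↔ ¬ Contains π := by
  rw [av_iff]
  have hl : (toL π).length = n := by simp [toL]
  rw [hl]
  constructor
  · rintro h ⟨i, i', j, k, h1, h2, h3, h4, h5, h6⟩
    have h2' : i'.val < j.val := h2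
    have := h i j k (by omega) h3 k.2
    rw [← h1, toL_getD π _ i.2, toL_getD π _ j.2, toL_getD π _ k.2, toL_getD π _ i'.2] at this
    exact absurd (this h4 h5) (not_le.mpr h6)
  · intro h i j k h1 h2 h3
    rw [toL_getD π i (by omega), toL_getD π j (by omega), toL_getD π k h3,
      toL_getD π (i + 1) (by omega)]
    intro h4 h5
    by_contra h6
    exact h ⟨⟨i, by omega⟩, ⟨i + 1, by omega⟩, ⟨j, by omega⟩, ⟨k, h3⟩, rfl, h1, h2, h4, h5,
      not_le.mp h6⟩

theorem card_perm (n : ℕ) (P : List ℕ → Prop) :
    Nat.card {π : Equiv.Perm (Fin n) // P (toL π)} = cnt (range n) P := by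
  classical
  rw [Nat.card_eq_fintype_card, Fintype.card_subtype]
  unfold cnt
  refine card_bij (fun π _ => toL π) ?_ ?_ ?_
  · intro π hπ
    simp only [mem_filter, mem_univ, true_and] at hπ
    rw [mem_filter, mem_Perms]
    refine ⟨⟨?_, fun x => ?_⟩, by convert hπ⟩
    · exact List.nodup_ofFn.mpr (fun i j h => π.injective (Fin.ext h))
    · simp only [toL, List.mem_ofFn, mem_range]
      constructor
      · rintro ⟨i, rfl⟩; exact (π i).2
      · intro hx; exact ⟨π.symm ⟨x, hx⟩, by simp⟩
  · intro π _ π' _ h
    have := List.ofFn_injective h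
    ext i
    exact congrFun this i
  · intro w hw
    rw [mem_filter, mem_Perms] at hw
    obtain ⟨⟨hn, hm⟩, hP⟩ := hw
    have hl : w.length = n := by
      rw [← List.toFinset_card_of_nodup hn, ← card_range n]
      congr 1
      ext x
      rw [List.mem_toFinset, hm]
    subst hl
    set g : Fin w.length → Fin w.length := fun i =>
      ⟨w.get i, mem_range.mp ((hm _).mp (List.get_mem w i))⟩ with hg
    have hinj : Function.Injective g := fun i j h =>
      (List.nodup_iff_injective_get.mp hn) (congrArg Fin.val h)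
    have e : toL (Equiv.ofBijective g (Finite.injective_iff_bijective.mp hinj)) = w := by
      simp only [toL, Equiv.ofBijective_apply, hg]
      exact List.ofFn_get w
    refine ⟨Equiv.ofBijective g (Finite.injective_iff_bijective.mp hinj), ?_, e⟩
    simp only [mem_filter, mem_univ, true_and]
    rw [e]
    convert hP

theorem coeff_RR (f : ℚ⟦X⟧) (k : ℕ) :
    coeff k (RR f) = coeff (k + 1) f + ∑ i ∈ range k, ((i + 1 : ℕ) : ℚ) * coeff (i + 1) f := by
  rw [RR_apply, map_add]
  congr 1
  · change coeff k (PowerSeries.mk (fun k => coeff (k + 1) f)) = _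
    rw [coeff_mk]
  · cases k with
    | zero => simp [coeff_zero_dl, ← coeff_zero_eq_constantCoeff_apply]
    | succ k =>
      rw [dl_apply, mul_assoc, coeff_succ_X_mul, mul_comm, coeff_mul,
        Nat.sum_antidiagonal_eq_sum_range_succ_mk]
      refine sum_congr rfl (fun i _ => ?_)
      simp only [H, coeff_mk, Pi.one_apply, mul_one, coeff_derivative]
      push_cast
      ring

theorem sum_children (g : ℕ → ℚ) (k : ℕ) (hk : 1 ≤ k) :
    ((children k).map g).sum = g (k + 1) + ∑ i ∈ range k, ((i + 1 : ℕ) : ℚ) * g (i + 1) := by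
  obtain ⟨k, rfl⟩ : ∃ k', k = k' + 1 := ⟨k - 1, by omega⟩
  have h : ∀ m : ℕ, (((List.range' 2 m).flatMap (fun i => List.replicate i i)).map g).sum =
      ∑ i ∈ range m, ((i + 1 + 1 : ℕ) : ℚ) * g (i + 1 + 1) := by
    intro m
    induction m with
    | zero => simp
    | succ m ih =>
      rw [List.range'_concat, List.flatMap_append, List.map_append, List.sum_append, ih,
        sum_range_succ]
      simp [add_comm, add_left_comm]
  unfold children
  rw [List.map_append, List.map_append, List.sum_append, List.sum_append, Nat.add_sub_cancel, h,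
    sum_range_succ']
  simp
  ring

theorem children_pos (k : ℕ) : ∀ x ∈ children k, 1 ≤ x := by
  intro x hx
  simp only [children, List.mem_append, List.mem_singleton, List.mem_flatMap, List.mem_range',
    List.mem_replicate] at hx
  rcases hx with (rfl | ⟨i, ⟨j, _, rfl⟩, _, rfl⟩) | rfl <;> omega

theorem level_pos : ∀ n : ℕ, ∀ x ∈ level n, 1 ≤ x
  | 0 => by simp [level]
  | 1 => by simp [level]
  | n + 2 => by
    intro x hx
    simp only [level, List.mem_flatMap] at hx
    obtain ⟨k, -, hk⟩ := hx
    exact children_pos k x hk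

theorem sum_flatMap (g : ℕ → ℚ) (l : List ℕ) :
    ((l.flatMap children).map g).sum = (l.map (fun k => ((children k).map g).sum)).sum := by
  induction l with
  | nil => simp
  | cons a l ih => simp [List.flatMap_cons, ih]

theorem sum_level (n : ℕ) : ∀ f : ℚ⟦X⟧,
    ((level (n + 1)).map (fun k => coeff k f)).sum = ev (n + 1) f := by
  induction n with
  | zero =>
    intro f
    rw [ev_succ, ev_zero, coeff_RR]
    simp [level]
  | succ n ih =>
    intro f
    rw [ev_succ, ← ih (RR f), level, sum_flatMap]
    congr 1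
    refine List.map_congr_left (fun k hk => ?_)
    rw [sum_children _ k (level_pos _ k hk), coeff_RR]

theorem main (n : ℕ) (hn : 1 ≤ n) :
    Nat.card {π : Equiv.Perm (Fin n) // ¬ Contains π} = poweredCatalan n := by
  obtain ⟨n, rfl⟩ : ∃ m, n = m + 1 := ⟨n - 1, by omega⟩
  have h1 := card_perm (n + 1) Av
  simp only [av_toL] at h1
  have h2 := count_av (range (n + 1))
  rw [card_range, ← sum_level, ← h1] at h2
  simp only [H, coeff_mk, Pi.one_apply, List.map_const', List.sum_replicate, nsmul_eq_mul,
    mul_one] at h2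
  exact_mod_cast h2

theorem rminL_ofFn : ∀ (n : ℕ) (g : Fin n → ℕ),
    rminL (List.ofFn g) = Nat.card {i : Fin n // ∀ j : Fin n, i < j → g i < g j}
  | 0, g => by simp [rminL]
  | n + 1, g => by
    classical
    rw [List.ofFn_succ, rminL, rminL_ofFn n, Nat.card_eq_fintype_card, Nat.card_eq_fintype_card,
      Fintype.card_subtype, Fintype.card_subtype, card_filter, card_filter, Fin.sum_univ_succ,
      add_comm]
    congr 1
    · refine if_congr ?_ rfl rfl
      simp only [List.mem_ofFn, forall_exists_index, forall_apply_eq_imp_iff]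
      rw [Fin.forall_fin_succ]
      simp
    · refine sum_congr rfl (fun i _ => if_congr ?_ rfl rfl)
      rw [Fin.forall_fin_succ]
      simp

/-- Avoiders with `k` right-to-left minima. -/
theorem main_rmin (n k : ℕ) :
    (Nat.card {π : Equiv.Perm (Fin n) // ¬ Contains π ∧
      Nat.card {i : Fin n // ∀ j : Fin n, i < j → π i < π j} = k} : ℚ) = ev n (X ^ k) := by
  have h1 := card_perm n (fun w => Av w ∧ rminL w = k)
  have h2 := count_av_rmin (range n) k
  rw [card_range, ← h1] at h2
  rw [← h2]
  simp only [av_toL]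
  simp only [toL, rminL_ofFn, Fin.val_fin_lt]

end Pool.Agent.H970Z.BS
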